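import Pool.Agent.Helper89.HY.St2

/-!
# HY2 (MP_e188f1_nt), module PON: positivity

After `Pool/Agent/Helper47/HY/M_POS.lean`.
-/

set_option autoImplicit false

noncomputable section

namespace Pool.Agent.Helper70.HY

open Finset
open Pool.Agent.Helper89.HY

private theorem ad_sum (n : ℕ) [NeZero n] (f : Fin 6 → ZMod n) :
    (ZMod.stdAddChar (∑ i, f i) : ℂ) = ∏ i, (ZMod.stdAddChar (f i) : ℂ) := by
  rw [Fin.sum_univ_six, Fin.prod_univ_six]
  simp only [AddChar.map_add_eq_mul]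

private theorem expand (n : ℕ) [NeZero n] (V : Finset (Fin 6 → ZMod n))
    (w v : Fin 6 → ZMod n → ℝ)
    (hw : ∀ i x, (w i x : ℂ) = ∑ m : ZMod n, (v i m : ℂ) * ZMod.stdAddChar (m * x)) :
    ((∑ x ∈ V, ∏ i, w i (x i) : ℝ) : ℂ) =
      ∑ m : Fin 6 → ZMod n, ((∏ i, v i (m i) : ℝ) : ℂ) *
        ∑ x ∈ V, (ZMod.stdAddChar (∑ i, m i * x i) : ℂ) := by
  push_cast
  have h1 : ∀ x ∈ V, ∏ i, (w i (x i) : ℂ) =
      ∑ m : Fin 6 → ZMod n, (∏ i, (v i (m i) : ℂ)) * ZMod.stdAddChar (∑ i, m i * x i) := by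
    intro x _
    have h2 : ∏ i, (w i (x i) : ℂ) = ∏ i, ∑ m : ZMod n, (v i m : ℂ) * ZMod.stdAddChar (m * x i) :=
      Finset.prod_congr rfl fun i _ => hw i (x i)
    rw [h2, Finset.prod_univ_sum, Fintype.piFinset_univ]
    refine Finset.sum_congr rfl fun m _ => ?_
    rw [Finset.prod_mul_distrib, ad_sum]
  rw [Finset.sum_congr rfl h1, Finset.sum_comm]
  refine Finset.sum_congr rfl fun m _ => ?_
  rw [Finset.mul_sum]

/-- Module PON. -/
theorem hPON : StPON := by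
  classical
  intro n _ V w v B hB hv hw hVm
  have e1 := expand n V w v hw
  have hc : ∀ m : Fin 6 → ZMod n, 0 ≤ ∏ i, v i (m i) := fun m =>
    Finset.prod_nonneg fun i _ => hv i (m i)
  have e3 := congrArg Complex.re e1
  rw [Complex.ofReal_re] at e3
  rw [e3]
  refine (Complex.re_le_norm _).trans ((norm_sum_le _ _).trans ?_)
  have h1 : ∑ m : Fin 6 → ZMod n, ‖((∏ i, v i (m i) : ℝ) : ℂ) *
      ∑ x ∈ V, (ZMod.stdAddChar (∑ i, m i * x i) : ℂ)‖ ≤
      ∑ m : Fin 6 → ZMod n, B * ((∏ i, v i (m i)) * An n m) := by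
    refine Finset.sum_le_sum fun m _ => ?_
    rw [norm_mul, Complex.norm_real, Real.norm_of_nonneg (hc m)]
    calc (∏ i, v i (m i)) * ‖∑ x ∈ V, (ZMod.stdAddChar (∑ i, m i * x i) : ℂ)‖
        ≤ (∏ i, v i (m i)) * (B * An n m) := mul_le_mul_of_nonneg_left (hVm m) (hc m)
      _ = _ := by ring
  refine h1.trans (le_of_eq ?_)
  rw [← Finset.mul_sum]
  congr 1
  have h2 : ∀ b : ZMod n, ∏ i : Fin 6, ∑ m ∈ univ.filter (fun m : ZMod n => b * m = 0), v i m =
      ∑ m : Fin 6 → ZMod n, if ∀ i, b * m i = 0 then ∏ i, v i (m i) else 0 := by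
    intro b
    rw [Finset.prod_univ_sum, ← Finset.sum_filter]
    refine Finset.sum_congr ?_ fun _ _ => rfl
    ext m
    simp only [Fintype.mem_piFinset, mem_filter, mem_univ, true_and]
  have h3 : ∀ m : Fin 6 → ZMod n, (∏ i, v i (m i)) * (An n m : ℝ) =
      ∑ b : ZMod n, if ∀ i, b * m i = 0 then ∏ i, v i (m i) else 0 := by
    intro m
    rw [← Finset.sum_filter, Finset.sum_const, nsmul_eq_mul, mul_comm]
    congr 2
  rw [Finset.sum_congr rfl fun m _ => h3 m, Finset.sum_comm]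
  refine Finset.sum_congr rfl fun b _ => ?_
  rw [← h2 b]

end Pool.Agent.Helper70.HY
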